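import Mathlib
import Pool.Agent.Helper287.HW.Final

set_option autoImplicit false
open Filter

namespace Pool.Agent.Results.MP_6ad5de_an.MonotoneModuli

/-- first later index at which the modulus is larger -/
noncomputable def nextIdx (r : ℕ → ℝ) (h : ∀ k, ∃ j, r k < r j) (k : ℕ) : ℕ := by
  classical exact Nat.find (h k)

noncomputable def sub (r : ℕ → ℝ) (h : ∀ k, ∃ j, r k < r j) : ℕ → ℕ
  | 0 => 0
  | (k + 1) => nextIdx r h (sub r h k)

theorem nextIdx_spec (r : ℕ → ℝ) (h : ∀ k, ∃ j, r k < r j) (k : ℕ) :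
    r k < r (nextIdx r h k) := by
  classical
  exact Nat.find_spec (h k)

theorem nextIdx_min (r : ℕ → ℝ) (h : ∀ k, ∃ j, r k < r j) (k j : ℕ)
    (hj : j < nextIdx r h k) : r j ≤ r k := by
  classical
  exact not_lt.mp (Nat.find_min (h k) hj)

theorem nextIdx_gt (r : ℕ → ℝ) (hm : Monotone r) (h : ∀ k, ∃ j, r k < r j) (k : ℕ) :
    k < nextIdx r h k := by
  by_contra hc
  have h1 := hm (not_lt.mp hc)
  exact absurd (nextIdx_spec r h k) (not_lt.mpr h1)

/-- Full statement of Q1 for omitted values whose moduli increase in the weak sense (repetitions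
allowed): the mean of `|f|` is `O(1/(1-r))` and the Taylor coefficients are `O(n)`. -/
theorem result :
    ∀ (f : ℂ → ℂ) (w : ℕ → ℂ),
      DifferentiableOn ℂ f (Metric.ball (0 : ℂ) 1) →
      (∀ z ∈ Metric.ball (0 : ℂ) 1, ∀ k : ℕ, f z ≠ w k) →
      (∀ k : ℕ, w k ≠ 0) →
      Monotone (fun k : ℕ => ‖w k‖) →
      Tendsto (fun k : ℕ => ‖w k‖) atTop atTop →
      Summable (fun n : ℕ => (Real.log (‖w (n + 1)‖ / ‖w n‖)) ^ 2) →
      (∃ C : ℝ, ∀ r : ℝ, 0 ≤ r → r < 1 →
          (1 / (2 * Real.pi)) * ∫ θ in (0 : ℝ)..(2 * Real.pi), ‖f (circleMap 0 r θ)‖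
            ≤ C / (1 - r)) ∧
      (∃ C : ℝ, ∀ n : ℕ,
          ‖iteratedDeriv n f 0 / (n.factorial : ℂ)‖ ≤ C * ((n : ℝ) + 1)) := by
  intro f w hf hom h0 hm ht hs
  have hex : ∀ k, ∃ j, ‖w k‖ < ‖w j‖ := by
    intro k
    obtain ⟨j, hj⟩ := (ht.eventually (eventually_gt_atTop ‖w k‖)).exists
    exact ⟨j, hj⟩
  set r : ℕ → ℝ := fun k => ‖w k‖ with hr
  set φ := sub r hex with hφ
  have hφs : ∀ k, φ (k + 1) = nextIdx r hex (φ k) := fun k => rfl
  have hφm : StrictMono φ := strictMono_nat_of_lt_succ (fun k => by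
    rw [hφs]; exact nextIdx_gt r hm hex (φ k))
  have hsm : StrictMono (fun k => ‖w (φ k)‖) := strictMono_nat_of_lt_succ (fun k => by
    show r (φ k) < r (φ (k + 1))
    rw [hφs]; exact nextIdx_spec r hex (φ k))
  have hpred : ∀ k, r (φ (k + 1) - 1) = r (φ k) := by
    intro k
    have h1 : φ k < φ (k + 1) := hφm (Nat.lt_succ_self k)
    apply le_antisymm
    · apply nextIdx_min r hex
      rw [← hφs]; omega
    · exact hm (by omega)
  have hsum : Summable (fun n : ℕ => (Real.log (‖w (φ (n + 1))‖ / ‖w (φ n)‖)) ^ 2) := by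
    have hinj : Function.Injective (fun n : ℕ => φ (n + 1) - 1) := by
      intro a b hab
      have ha : φ a < φ (a + 1) := hφm (Nat.lt_succ_self a)
      have hb : φ b < φ (b + 1) := hφm (Nat.lt_succ_self b)
      have : φ (a + 1) = φ (b + 1) := by
        simp only at hab
        omega
      have := hφm.injective this
      omega
    have := hs.comp_injective hinj
    refine this.congr (fun n => ?_)
    have h1 : φ n < φ (n + 1) := hφm (Nat.lt_succ_self n)
    have h2 : φ (n + 1) - 1 + 1 = φ (n + 1) := by omega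
    simp only [Function.comp, h2]
    have h3 := hpred n
    simp only [hr] at h3
    rw [h3]
  exact HW287.main_thm f (fun k => w (φ k)) hf (fun z hz k => hom z hz (φ k))
    (norm_pos_iff.mpr (h0 (φ 0))) hsm (ht.comp hφm.tendsto_atTop) hsum

end Pool.Agent.Results.MP_6ad5de_an.MonotoneModuli
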